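import Mathlib
import Pool.Agent.Helper68.BB.Act

/-!
The action of a group on the tree (module D of MP_ff8665_gt).
-/

namespace Pool.Agent.Helper93.FF

set_option linter.unusedSectionVars false

open Set Filter Topology Pool.Agent.Helper68.BB Pool.Agent.Helper68.BB.RTree
open scoped unitInterval

section edges

variable {V : Type} (T : RTree V)

/-- height of the point with parameter `s` on the edge below `k` -/
noncomputable def lv (k : V) (s : ℝ) : ℝ := (1 - s) * E (T.b k - 1) + s * E (T.b k)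

lemma E_pred_lt (n : ℤ) : E (n - 1) < E n := by rw [E_lt]; omega

lemma le_lv (k : V) {s : ℝ} (h0 : 0 ≤ s) : E (T.b k - 1) ≤ lv T k s := by
  have := E_pred_lt (T.b k)
  unfold lv
  nlinarith

lemma lv_le (k : V) {s : ℝ} (h1 : s ≤ 1) : lv T k s ≤ E (T.b k) := by
  have := E_pred_lt (T.b k)
  unfold lv
  nlinarith

lemma lv_pos (k : V) {s : ℝ} (h0 : 0 ≤ s) : 0 < lv T k s := (E_pos _).trans_le (le_lv T k h0)

lemma lv_lt_one (k : V) {s : ℝ} (h1 : s ≤ 1) : lv T k s < 1 := (lv_le T k h1).trans_lt (E_lt_one _)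

lemma c_p (k g : V) : T.c (T.p k) g = min (E (T.b k - 1)) (T.c k g) := by
  unfold RTree.c
  rw [T.m_p, E_strictMono.monotone.map_min]

lemma trunc_lv_apply (k : V) {s : ℝ} (h0 : 0 ≤ s) (h1 : s ≤ 1) (g : V) :
    (trunc (vt T k) (lv T k s)).1 g = (1 - s) * T.c (T.p k) g + s * T.c k g := by
  rw [trunc_apply' _ (lv_pos T k h0).le, vt_apply, c_p]
  rcases (T.m_le_left k g).eq_or_lt with h | h
  · have e : T.c k g = E (T.b k) := by unfold RTree.c; rw [h]
    rw [e, min_eq_right (lv_le T k h1), min_eq_left (E_pred_lt _).le]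
    rfl
  · have e : T.c k g ≤ E (T.b k - 1) := by unfold RTree.c; rw [E_le]; omega
    rw [min_eq_left (e.trans (le_lv T k h0)), min_eq_right e]
    ring

lemma Ht_trunc_lv (k : V) {s : ℝ} (h0 : 0 ≤ s) (h1 : s ≤ 1) :
    Ht (trunc (vt T k) (lv T k s)) = lv T k s := by
  rw [Ht_trunc _ (lv_pos T k h0).le, Ht_vt, min_eq_right (lv_le T k h1)]

/-- points of an edge -/
noncomputable def fe (k : V) (s : I) : ↥(Fi T) := ⟨trunc (vt T k) (lv T k s), by
  have h0 : (0 : ℝ) ≤ s := s.2.1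
  have h1 : (s : ℝ) ≤ 1 := s.2.2
  constructor
  · rw [trunc_lv_apply T k h0 h1]
    have a1 := T.c_pos (T.p k) T.o
    have a2 := T.c_pos k T.o
    rcases h0.eq_or_lt with h | h
    · rw [← h]; linarith
    · have : 0 ≤ (1 - (s : ℝ)) * T.c (T.p k) T.o := mul_nonneg (by linarith) a1.le
      have : 0 < (s : ℝ) * T.c k T.o := mul_pos h a2
      linarith
  · rw [Ht_trunc_lv T k h0 h1]
    exact lv_lt_one T k h1⟩

lemma fe_apply (k : V) (s : I) (g : V) :
    (fe T k s).1.1 g = (1 - (s : ℝ)) * T.c (T.p k) g + s * T.c k g :=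
  trunc_lv_apply T k s.2.1 s.2.2 g

lemma Ht_fe (k : V) (s : I) : Ht (fe T k s).1 = lv T k s := Ht_trunc_lv T k s.2.1 s.2.2

lemma fi_ext {x y : ↥(Fi T)} (h : ∀ g, x.1.1 g = y.1.1 g) : x = y :=
  Subtype.ext (Subtype.ext (funext h))

lemma exists_fe (x : ↥(Fi T)) : ∃ (k : V) (s : I), 0 < (s : ℝ) ∧ x = fe T k s := by
  obtain ⟨k, h1, h2, h3⟩ := exists_edge (Ht_pos x.2.1) x.2.2
  have hd : 0 < E (T.b k) - E (T.b k - 1) := sub_pos.2 (E_pred_lt _)
  set s : ℝ := (Ht x.1 - E (T.b k - 1)) / (E (T.b k) - E (T.b k - 1)) with hs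
  have hs0 : 0 < s := div_pos (by linarith) hd
  have hs1 : s ≤ 1 := by rw [hs, div_le_one hd]; linarith
  have hlv : lv T k s = Ht x.1 := by
    have : s * (E (T.b k) - E (T.b k - 1)) = Ht x.1 - E (T.b k - 1) := by
      rw [hs]; field_simp
    unfold lv
    linarith
  refine ⟨k, ⟨s, hs0.le, hs1⟩, hs0, ?_⟩
  apply Subtype.ext
  show x.1 = trunc (vt T k) (lv T k s)
  rw [hlv]
  exact h3

lemma b_p_ne (k : V) : T.p k ≠ k := by
  intro h
  have := T.b_p k
  rw [h] at this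
  omega

lemma fe_zero (k : V) : fe T k 0 = fe T (T.p k) 1 := by
  apply fi_ext
  intro g
  rw [fe_apply, fe_apply]
  simp

lemma fe_inj {k k' : V} {s s' : I} (hs : 0 < (s : ℝ)) (hs' : 0 < (s' : ℝ))
    (h : fe T k s = fe T k' s') : k = k' ∧ s = s' := by
  have hH : lv T k s = lv T k' s' := by rw [← Ht_fe, ← Ht_fe, h]
  have a1 : E (T.b k - 1) < lv T k s := by
    have := E_pred_lt (T.b k)
    unfold lv; nlinarith
  have a2 : E (T.b k' - 1) < lv T k' s' := by
    have := E_pred_lt (T.b k')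
    unfold lv; nlinarith
  have a3 := lv_le T k s.2.2
  have a4 := lv_le T k' s'.2.2
  have b1 : T.b k - 1 < T.b k' := E_lt.1 (a1.trans_le (hH.trans_le a4))
  have b2 : T.b k' - 1 < T.b k := E_lt.1 (a2.trans_le (hH.symm.trans_le a3))
  have hb : T.b k = T.b k' := by omega
  have hk : k = k' := by
    have h1 := congrArg (fun z : ↥(Fi T) => z.1.1 k) h
    simp only [fe_apply] at h1
    have e1 : (1 - (s : ℝ)) * T.c (T.p k) k + s * T.c k k = lv T k s := by
      rw [c_p, T.c_self, min_eq_left (E_pred_lt _).le]; rfl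
    rw [e1] at h1
    have h2 : E (T.b k - 1) < T.c k' k := by
      by_contra hcon
      push Not at hcon
      have h3 : T.c (T.p k') k ≤ E (T.b k - 1) := by
        rw [c_p]; exact (min_le_right _ _).trans hcon
      have h4 : (1 - (s' : ℝ)) * T.c (T.p k') k + s' * T.c k' k ≤ E (T.b k - 1) := by
        have := s'.2.1
        have := s'.2.2
        nlinarith
      linarith
    unfold RTree.c at h2
    rw [E_lt] at h2
    have h5 : T.anc k' (T.b k) = T.anc k (T.b k) :=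
      (T.le_m_iff (by omega) le_rfl).1 (by omega)
    rw [T.anc_self, hb, T.anc_self] at h5
    exact h5.symm
  refine ⟨hk, ?_⟩
  subst hk
  have hd := E_pred_lt (T.b k)
  unfold lv at hH
  have : ((s : ℝ) - s') * (E (T.b k) - E (T.b k - 1)) = 0 := by linarith
  rcases mul_eq_zero.1 this with h | h
  · exact Subtype.ext (by linarith)
  · linarith

/-- the edge of a point -/
noncomputable def kx (x : ↥(Fi T)) : V := (exists_fe T x).choose
noncomputable def sx (x : ↥(Fi T)) : I := (exists_fe T x).choose_spec.choose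
lemma sx_pos (x : ↥(Fi T)) : 0 < (sx T x : ℝ) := (exists_fe T x).choose_spec.choose_spec.1
lemma eq_fe (x : ↥(Fi T)) : x = fe T (kx T x) (sx T x) :=
  (exists_fe T x).choose_spec.choose_spec.2

/-- affine extension -/
noncomputable def aff (F : V → ℝ) (x : ↥(Fi T)) : ℝ :=
  (sx T x : ℝ) * F (kx T x) + (1 - (sx T x : ℝ)) * F (T.p (kx T x))

lemma aff_fe_pos (F : V → ℝ) (k : V) {s : I} (hs : 0 < (s : ℝ)) :
    aff T F (fe T k s) = s * F k + (1 - s) * F (T.p k) := by
  obtain ⟨h1, h2⟩ := fe_inj T (sx_pos T (fe T k s)) hs (eq_fe T (fe T k s)).symm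
  unfold aff
  rw [h1, h2]

lemma aff_fe (F : V → ℝ) (k : V) (s : I) :
    aff T F (fe T k s) = s * F k + (1 - s) * F (T.p k) := by
  rcases (s.2.1).eq_or_lt with h | h
  · have hs : s = 0 := Subtype.ext h.symm
    subst hs
    rw [fe_zero, aff_fe_pos T F _ (by simp)]
    simp
  · exact aff_fe_pos T F k h

lemma continuous_fe (k : V) : Continuous (fe T k) := by
  apply Continuous.subtype_mk
  have : Continuous (fun s : I => (vt T k, lv T k s)) := by
    unfold lv
    fun_prop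
  exact continuous_trunc.comp this

lemma continuous_Ht_Fi : Continuous (fun x : ↥(Fi T) => Ht x.1) := by
  rw [continuous_iff_continuousAt]
  intro x
  exact (continuousAt_Ht x.2.1).comp continuous_subtype_val.continuousAt

lemma continuous_co (g : V) : Continuous (fun x : ↥(Fi T) => x.1.1 g) :=
  (continuous_coord g).comp continuous_subtype_val

lemma fe_le_c (k : V) (s : I) (g : V) : (fe T k s).1.1 g ≤ T.c k g := by
  rw [fe_apply]
  have h : T.c (T.p k) g ≤ T.c k g := by rw [c_p]; exact min_le_right _ _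
  have := s.2.1
  have := s.2.2
  nlinarith

lemma locallyFinite_edges : LocallyFinite (fun k : V => range (fe T k)) := by
  intro x
  obtain ⟨l, hl⟩ := exists_E_lt x.2.1
  obtain ⟨n, hn⟩ := exists_lt_E x.2.2
  refine ⟨{y | E l < y.1.1 T.o ∧ Ht y.1 < E n}, ?_, ?_⟩
  · have ho : IsOpen {y : ↥(Fi T) | E l < y.1.1 T.o ∧ Ht y.1 < E n} :=
      (isOpen_lt continuous_const (continuous_co T T.o)).inter
        (isOpen_lt (continuous_Ht_Fi T) continuous_const)
    exact ho.mem_nhds ⟨hl, hn⟩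
  · apply (T.finite_le T.o l n).subset
    rintro k ⟨y, ⟨s, rfl⟩, h1, h2⟩
    constructor
    · have h3 := h1.trans_le (fe_le_c T k s T.o)
      unfold RTree.c at h3
      exact (E_lt.1 h3).le
    · rw [Ht_fe] at h2
      have := E_lt.1 ((le_lv T k s.2.1).trans_lt h2)
      omega

lemma continuous_of_edges {Y : Type*} [TopologicalSpace Y] {f : ↥(Fi T) → Y}
    (h : ∀ k, Continuous (fun s : I => f (fe T k s))) : Continuous f := by
  apply (locallyFinite_edges T).continuous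
  · rw [eq_univ_iff_forall]
    intro x
    exact mem_iUnion.2 ⟨kx T x, sx T x, (eq_fe T x).symm⟩
  · intro k
    exact (isCompact_range (continuous_fe T k)).isClosed
  · intro k
    rw [continuousOn_iff_continuous_domRestrict]
    have hq : IsQuotientMap (rangeFactorization (fe T k)) :=
      IsQuotientMap.of_surjective_continuous rangeFactorization_surjective
        ((continuous_fe T k).subtype_mk _)
    rw [hq.continuous_iff]
    exact h k

lemma continuous_aff (F : V → ℝ) : Continuous (aff T F) := by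
  apply continuous_of_edges
  intro k
  simp only [aff_fe]
  fun_prop

/-- if `aff 1_u x ≠ 0` then `u` is an end of the edge of `x` -/
lemma finite_edges {K : Set ↥(Fi T)} (hK : IsCompact K) :
    ∃ S : Set V, S.Finite ∧ ∀ x ∈ K, ∃ k ∈ S, ∃ s : I, x = fe T k s := by
  refine ⟨_, (locallyFinite_edges T).finite_nonempty_inter_compact hK, fun x hx => ?_⟩
  exact ⟨kx T x, ⟨x, ⟨sx T x, (eq_fe T x).symm⟩, hx⟩, sx T x, eq_fe T x⟩

end edges

section act

variable {Γ : Type} [Group Γ] (T : RTree Γ)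
  (hedge : ∀ γ v : Γ, T.p (γ * v) = γ * T.p v ∨ T.p (γ * T.p v) = γ * v)

include hedge in
/-- the image edge -/
lemma edge_image (γ k : Γ) (s : I) : ∃ (k' : Γ) (s' : I),
    ((k' = γ * k ∧ T.p k' = γ * T.p k) ∨ (k' = γ * T.p k ∧ T.p k' = γ * k)) ∧
    ∀ F : Γ → ℝ, (s' : ℝ) * F k' + (1 - (s' : ℝ)) * F (T.p k') =
      s * F (γ * k) + (1 - s) * F (γ * T.p k) := by
  rcases hedge γ k with h | h
  · exact ⟨γ * k, s, Or.inl ⟨rfl, h⟩, fun F => by rw [h]⟩
  · refine ⟨γ * T.p k, σ s, Or.inr ⟨rfl, h⟩, fun F => ?_⟩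
    rw [h, unitInterval.coe_symm_eq]
    ring

include hedge in
lemma exists_act (γ : Γ) (x : ↥(Fi T)) :
    ∃ y : ↥(Fi T), ∀ g, y.1.1 g = aff T (fun u => T.c (γ * u) g) x := by
  obtain ⟨k', s', -, h⟩ := edge_image T hedge γ (kx T x) (sx T x)
  refine ⟨fe T k' s', fun g => ?_⟩
  rw [fe_apply]
  have := h (fun u => T.c u g)
  unfold aff
  linarith

/-- the action -/
noncomputable def act (γ : Γ) (x : ↥(Fi T)) : ↥(Fi T) := (exists_act T hedge γ x).choose

lemma act_apply (γ : Γ) (x : ↥(Fi T)) (g : Γ) :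
    (act T hedge γ x).1.1 g = aff T (fun u => T.c (γ * u) g) x :=
  (exists_act T hedge γ x).choose_spec g

lemma act_fe (γ k : Γ) (s : I) : ∃ (k' : Γ) (s' : I),
    ((k' = γ * k ∧ T.p k' = γ * T.p k) ∨ (k' = γ * T.p k ∧ T.p k' = γ * k)) ∧
    act T hedge γ (fe T k s) = fe T k' s' ∧
    ∀ F : Γ → ℝ, (s' : ℝ) * F k' + (1 - (s' : ℝ)) * F (T.p k') =
      s * F (γ * k) + (1 - s) * F (γ * T.p k) := by
  obtain ⟨k', s', h1, h⟩ := edge_image T hedge γ k s
  refine ⟨k', s', h1, ?_, h⟩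
  apply fi_ext
  intro g
  rw [act_apply, aff_fe, fe_apply]
  have := h (fun u => T.c u g)
  linarith

lemma aff_act (F : Γ → ℝ) (γ : Γ) (x : ↥(Fi T)) :
    aff T F (act T hedge γ x) = aff T (fun u => F (γ * u)) x := by
  rw [eq_fe T x]
  obtain ⟨k', s', -, h2, h3⟩ := act_fe T hedge γ (kx T x) (sx T x)
  rw [h2, aff_fe, aff_fe, h3]

/-- the action as an instance -/
@[instance_reducible]
noncomputable def mulAct : MulAction Γ ↥(Fi T) where
  smul γ x := act T hedge γ x
  one_smul x := by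
    apply fi_ext
    intro g
    show (act T hedge 1 x).1.1 g = x.1.1 g
    rw [act_apply]
    conv_lhs => rw [eq_fe T x]
    conv_rhs => rw [eq_fe T x]
    rw [aff_fe, fe_apply]
    simp only [one_mul]
    ring
  mul_smul γ δ x := by
    apply fi_ext
    intro g
    show (act T hedge (γ * δ) x).1.1 g = (act T hedge γ (act T hedge δ x)).1.1 g
    rw [act_apply, act_apply, aff_act]
    simp only [mul_assoc]

lemma continuous_act (γ : Γ) : Continuous (fun x => act T hedge γ x) := by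
  rw [continuous_induced_rng, continuous_induced_rng, continuous_pi_iff]
  intro g
  have : (fun x => (act T hedge γ x).1.1 g) = aff T (fun u => T.c (γ * u) g) :=
    funext fun x => act_apply T hedge γ x g
  show Continuous (fun x => (act T hedge γ x).1.1 g)
  rw [this]
  exact continuous_aff T _

open Classical in
/-- barycentric coordinate -/
noncomputable def bc (u : Γ) : ↥(Fi T) → ℝ := aff T (fun w => if w = u then 1 else 0)

lemma continuous_bc (u : Γ) : Continuous (bc T u) := continuous_aff T _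

lemma bc_fe (u k : Γ) (s : I) (h : 0 < bc T u (fe T k s)) :
    (u = k ∧ bc T u (fe T k s) = s) ∨ (u = T.p k ∧ bc T u (fe T k s) = 1 - s) := by
  unfold bc at h ⊢
  rw [aff_fe] at h ⊢
  by_cases h1 : k = u
  · left
    have h2 : T.p k ≠ u := by rw [← h1]; exact b_p_ne T k
    rw [if_pos h1, if_neg h2]
    exact ⟨h1.symm, by ring⟩
  · by_cases h2 : T.p k = u
    · right
      rw [if_neg h1, if_pos h2]
      exact ⟨h2.symm, by ring⟩
    · rw [if_neg h1, if_neg h2] at h
      simp at h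

lemma bc_act (u γ : Γ) (x : ↥(Fi T)) : bc T u (act T hedge γ x) = bc T (γ⁻¹ * u) x := by
  classical
  unfold bc
  rw [aff_act]
  congr 1
  funext w
  have : γ * w = u ↔ w = γ⁻¹ * u := by
    constructor
    · rintro rfl; simp
    · rintro rfl; simp
  show (if γ * w = u then (1 : ℝ) else 0) = if w = γ⁻¹ * u then 1 else 0
  simp only [this]

lemma bc_half {u v : Γ} {x : ↥(Fi T)} (hu : 1 / 2 < bc T u x) (hv : 1 / 2 < bc T v x) : u = v := by
  rw [eq_fe T x] at hu hv
  have hd := b_p_ne T (kx T x)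
  rcases bc_fe T u _ _ (by linarith) with ⟨h1, h2⟩ | ⟨h1, h2⟩ <;>
  rcases bc_fe T v _ _ (by linarith) with ⟨h3, h4⟩ | ⟨h3, h4⟩
  · rw [h1, h3]
  · linarith
  · linarith
  · rw [h1, h3]

lemma bc_supp {u v w : Γ} {x : ↥(Fi T)} (hu : 0 < bc T u x) (hv : 0 < bc T v x)
    (hw : 0 < bc T w x) (huv : u ≠ v) : w = u ∨ w = v := by
  rw [eq_fe T x] at hu hv hw
  rcases bc_fe T u _ _ hu with ⟨h1, -⟩ | ⟨h1, -⟩ <;>
  rcases bc_fe T v _ _ hv with ⟨h3, -⟩ | ⟨h3, -⟩ <;>
  rcases bc_fe T w _ _ hw with ⟨h5, -⟩ | ⟨h5, -⟩ <;> simp_all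

lemma bc_self_fe (k : Γ) (s : I) : bc T k (fe T k s) = s := by
  unfold bc
  rw [aff_fe, if_pos rfl, if_neg (b_p_ne T k)]
  ring

lemma bc_p_fe (k : Γ) (s : I) : bc T (T.p k) (fe T k s) = 1 - s := by
  unfold bc
  rw [aff_fe, if_pos rfl, if_neg (b_p_ne T k).symm]
  ring

lemma cov_half (u : Γ) (x : ↥(Fi T)) (h : 1 / 2 < bc T u x) :
    ∃ U : Set ↥(Fi T), IsOpen U ∧ x ∈ U ∧ ∀ γ : Γ, γ ≠ 1 → ∀ y ∈ U, act T hedge γ y ∉ U := by
  refine ⟨{y | 1 / 2 < bc T u y}, isOpen_lt continuous_const (continuous_bc T u), h, ?_⟩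
  intro γ hγ y hy hy'
  have h1 : 1 / 2 < bc T (γ⁻¹ * u) y := by rw [← bc_act T hedge]; exact hy'
  have h2 := bc_half T h1 hy
  apply hγ
  have : γ⁻¹ = 1 := by simpa using h2
  simpa using this

lemma cov (h2 : ∀ γ : Γ, γ * γ = 1 → γ = 1) (x : ↥(Fi T)) :
    ∃ U : Set ↥(Fi T), IsOpen U ∧ x ∈ U ∧ ∀ γ : Γ, γ ≠ 1 → ∀ y ∈ U, act T hedge γ y ∉ U := by
  obtain ⟨k, s, hs, rfl⟩ := exists_fe T x
  rcases lt_trichotomy (1 / 2 : ℝ) s with h | h | h
  · exact cov_half T hedge k _ (by rw [bc_self_fe]; exact h)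
  · refine ⟨{y | 0 < bc T k y} ∩ {y | 0 < bc T (T.p k) y},
      (isOpen_lt continuous_const (continuous_bc T _)).inter
        (isOpen_lt continuous_const (continuous_bc T _)), ⟨?_, ?_⟩, ?_⟩
    · show 0 < bc T k (fe T k s)
      rw [bc_self_fe]; exact hs
    · show 0 < bc T (T.p k) (fe T k s)
      rw [bc_p_fe]; linarith
    · rintro γ hγ y ⟨hy1, hy2⟩ ⟨hy3, hy4⟩
      simp only [mem_ofPred_eq] at hy1 hy2 hy3 hy4
      rw [bc_act] at hy3 hy4
      have hne : k ≠ T.p k := (b_p_ne T k).symm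
      have e1 := bc_supp T hy1 hy2 hy3 hne
      have e2 := bc_supp T hy1 hy2 hy4 hne
      apply hγ
      have key : γ⁻¹ = 1 := by
        rcases e1 with e1 | e1
        · simpa using e1
        · rcases e2 with e2 | e2
          · apply h2
            have : γ⁻¹ * (γ⁻¹ * k) = k := by rw [e1, e2]
            rw [← mul_assoc] at this
            simpa using this
          · simpa using e2
      simpa using key
  · exact cov_half T hedge (T.p k) _ (by rw [bc_p_fe]; linarith)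

lemma cocpt : ∃ K : Set ↥(Fi T), IsCompact K ∧ ∀ x : ↥(Fi T), ∃ γ : Γ, act T hedge γ x ∈ K := by
  refine ⟨⋃ k ∈ ({1} ∪ {c | T.p c = 1} : Set Γ), range (fe T k), ?_, ?_⟩
  · apply ((finite_singleton 1).union (T.fin 1)).isCompact_biUnion
    intro k _
    exact isCompact_range (continuous_fe T k)
  · intro x
    obtain ⟨k', s', h1, h2, -⟩ := act_fe T hedge (kx T x)⁻¹ (kx T x) (sx T x)
    refine ⟨(kx T x)⁻¹, ?_⟩
    rw [eq_fe T x]
    conv at h2 => rw [← eq_fe T x]
    rw [← eq_fe T x, h2]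
    apply mem_iUnion₂.2
    refine ⟨k', ?_, s', rfl⟩
    rcases h1 with ⟨h1, -⟩ | ⟨-, h1⟩
    · left
      simpa using h1
    · right
      simpa using h1

/-! ### uniform smallness -/

lemma finite_mul_left {S : Set Γ} (hS : S.Finite) (u : Γ) : {γ : Γ | γ * u ∈ S}.Finite := by
  apply (hS.image (fun k => k * u⁻¹)).subset
  intro γ hγ
  exact ⟨γ * u, hγ, by group⟩

/-- the property `c(γu,g) - c(γu',g) → 0` -/
def PP (g u u' : Γ) : Prop := ∀ ε : ℝ, 0 < ε → {γ : Γ | ε < |T.c (γ * u) g - T.c (γ * u') g|}.Finite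

lemma PP_symm {g u u' : Γ} (h : PP T g u u') : PP T g u' u := by
  intro ε hε
  have := h ε hε
  simp only [abs_sub_comm] at this ⊢
  convert this using 3

lemma PP_trans {g u v w : Γ} (h1 : PP T g u v) (h2 : PP T g v w) : PP T g u w := by
  intro ε hε
  apply ((h1 (ε / 2) (half_pos hε)).union (h2 (ε / 2) (half_pos hε))).subset
  intro γ hγ
  by_contra hcon
  simp only [mem_union, mem_ofPred_eq, not_or, not_lt] at hcon hγ
  have := abs_sub_le (T.c (γ * u) g) (T.c (γ * v) g) (T.c (γ * w) g)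
  linarith [hcon.1, hcon.2]

lemma finite_edge (g : Γ) {ε : ℝ} (hε : 0 < ε) : {k | ε < |T.c k g - T.c (T.p k) g|}.Finite := by
  obtain ⟨l, hl⟩ := exists_E_lt hε
  apply (T.finite_le g l (T.b g)).subset
  intro k hk
  simp only [mem_ofPred_eq] at hk ⊢
  rw [c_p] at hk
  rcases (T.m_le_left k g).eq_or_lt with h | h
  · have e : T.c k g = E (T.b k) := by unfold RTree.c; rw [h]
    rw [e, min_eq_left (E_pred_lt _).le, abs_of_pos (sub_pos.2 (E_pred_lt _))] at hk
    have h1 := E_pos (T.b k - 1)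
    have h2 : E l < E (T.b k) := by linarith
    rw [E_lt] at h2
    refine ⟨by omega, ?_⟩
    rw [← h]
    exact T.m_le_right k g
  · have e : T.c k g ≤ E (T.b k - 1) := by unfold RTree.c; rw [E_le]; omega
    rw [min_eq_right e] at hk
    simp at hk
    linarith

include hedge in
lemma PP_p (g u : Γ) : PP T g u (T.p u) := by
  intro ε hε
  have hf := finite_edge T g hε
  apply ((finite_mul_left hf u).union (finite_mul_left hf (T.p u))).subset
  intro γ hγ
  simp only [mem_ofPred_eq] at hγ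
  rcases hedge γ u with h | h
  · left
    show ε < |T.c (γ * u) g - T.c (T.p (γ * u)) g|
    rw [h]; exact hγ
  · right
    show ε < |T.c (γ * T.p u) g - T.c (T.p (γ * T.p u)) g|
    rw [h, abs_sub_comm]; exact hγ

include hedge in
lemma PP_iter (g u : Γ) (n : ℕ) : PP T g u (T.p^[n] u) := by
  induction n with
  | zero =>
    intro ε hε
    convert finite_empty
    ext γ
    simp
    linarith
  | succ n ih =>
    rw [Function.iterate_succ_apply']
    exact PP_trans T ih (PP_p T hedge g _)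

include hedge in
lemma PP_all (g u u' : Γ) : PP T g u u' := by
  obtain ⟨m, n, h⟩ := T.dir u u'
  have h1 := PP_iter T hedge g u m
  rw [h] at h1
  exact PP_trans T h1 (PP_symm T (PP_iter T hedge g u' n))

/-- convex combinations -/
lemma conv_close {a b c d s t ε : ℝ} (hs0 : 0 ≤ s) (hs1 : s ≤ 1) (ht0 : 0 ≤ t) (ht1 : t ≤ 1)
    (hac : |a - c| ≤ ε) (had : |a - d| ≤ ε) (hbc : |b - c| ≤ ε) (hbd : |b - d| ≤ ε) :
    |(s * a + (1 - s) * b) - (t * c + (1 - t) * d)| ≤ ε := by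
  rw [abs_le] at *
  obtain ⟨h1, h2⟩ := hac
  obtain ⟨h3, h4⟩ := had
  obtain ⟨h5, h6⟩ := hbc
  obtain ⟨h7, h8⟩ := hbd
  have e1 : 0 ≤ s * t := mul_nonneg hs0 ht0
  have e2 : 0 ≤ s * (1 - t) := mul_nonneg hs0 (by linarith)
  have e3 : 0 ≤ (1 - s) * t := mul_nonneg (by linarith) ht0
  have e4 : 0 ≤ (1 - s) * (1 - t) := mul_nonneg (by linarith) (by linarith)
  have key : (s * a + (1 - s) * b) - (t * c + (1 - t) * d) =
      s * t * (a - c) + s * (1 - t) * (a - d) + (1 - s) * t * (b - c) +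
        (1 - s) * (1 - t) * (b - d) := by ring
  have one : s * t + s * (1 - t) + (1 - s) * t + (1 - s) * (1 - t) = 1 := by ring
  rw [key]
  constructor <;> nlinarith

include hedge in
lemma n1 {K : Set ↥(Fi T)} (hK : IsCompact K) (g : Γ) {ε : ℝ} (hε : 0 < ε) :
    {γ : Γ | ¬ ∀ x ∈ K, ∀ x' ∈ K,
      |(act T hedge γ x).1.1 g - (act T hedge γ x').1.1 g| ≤ ε}.Finite := by
  obtain ⟨S, hS, hSK⟩ := finite_edges T hK
  have hS' : (S ∪ T.p '' S).Finite := hS.union (hS.image _)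
  have hf : (⋃ u ∈ S ∪ T.p '' S, ⋃ u' ∈ S ∪ T.p '' S,
      {γ : Γ | ε < |T.c (γ * u) g - T.c (γ * u') g|}).Finite :=
    hS'.biUnion fun u _ => hS'.biUnion fun u' _ => PP_all T hedge g u u' ε hε
  apply hf.subset
  intro γ hγ
  by_contra hcon
  apply hγ
  have hall : ∀ u ∈ S ∪ T.p '' S, ∀ u' ∈ S ∪ T.p '' S, |T.c (γ * u) g - T.c (γ * u') g| ≤ ε := by
    intro u hu u' hu'
    by_contra h
    push Not at h
    exact hcon (mem_iUnion₂.2 ⟨u, hu, mem_iUnion₂.2 ⟨u', hu', h⟩⟩)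
  intro x hx x' hx'
  obtain ⟨k, hk, s, rfl⟩ := hSK x hx
  obtain ⟨k', hk', s', rfl⟩ := hSK x' hx'
  rw [act_apply, act_apply, aff_fe, aff_fe]
  exact conv_close s.2.1 s.2.2 s'.2.1 s'.2.2
    (hall _ (Or.inl hk) _ (Or.inl hk'))
    (hall _ (Or.inl hk) _ (Or.inr ⟨k', hk', rfl⟩))
    (hall _ (Or.inr ⟨k, hk, rfl⟩) _ (Or.inl hk'))
    (hall _ (Or.inr ⟨k, hk, rfl⟩) _ (Or.inr ⟨k', hk', rfl⟩))

/-! ### heights -/

/-- real height of a level -/
noncomputable def hE (n : ℤ) : ℝ := E n / (1 - E n)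

lemma hE_mono {m n : ℤ} (h : m ≤ n) : hE m ≤ hE n := h_strictMono.monotone h

lemma hE_add (m : ℤ) (n : ℕ) : hE (m + n) ≤ hE m + n := by
  induction n with
  | zero => simp
  | succ n ih =>
    have := h_succ_le (m + n)
    have e : m + ((n + 1 : ℕ) : ℤ) = m + n + 1 := by push_cast; ring
    rw [e]
    unfold hE at ih ⊢
    push_cast
    linarith

lemma hE_diff (m n : ℤ) (D : ℕ) (h : |m - n| ≤ D) : |hE m - hE n| ≤ D := by
  rw [abs_le] at h ⊢
  have a1 : hE m ≤ hE n + D := by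
    refine (hE_mono (by omega : m ≤ n + D)).trans (hE_add n D)
  have a2 : hE n ≤ hE m + D := by
    refine (hE_mono (by omega : n ≤ m + D)).trans (hE_add m D)
  constructor <;> linarith

lemma frac_mono {a b : ℝ} (h : a ≤ b) (hb : b < 1) : a / (1 - a) ≤ b / (1 - b) := by
  rw [div_le_div_iff₀ (by linarith) (by linarith)]
  nlinarith

lemma hh_fe (k : Γ) (s : I) : hE (T.b k - 1) ≤ hh (fe T k s).1 ∧ hh (fe T k s).1 ≤ hE (T.b k) := by
  unfold hh hE
  rw [Ht_fe]
  exact ⟨frac_mono (le_lv T k s.2.1) (lv_lt_one T k s.2.2),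
    frac_mono (lv_le T k s.2.2) (E_lt_one _)⟩

/-- the image of an edge: heights and base coordinates -/
lemma hh_act (γ k : Γ) (s : I) : |hh (act T hedge γ (fe T k s)).1 - hE (T.b (γ * k))| ≤ 1 := by
  obtain ⟨k', s', h1, h2, -⟩ := act_fe T hedge γ k s
  rw [h2]
  obtain ⟨a1, a2⟩ := hh_fe T k' s'
  have a3 : hE (T.b k') ≤ hE (T.b k' - 1) + 1 := by
    have := h_succ_le (T.b k' - 1)
    rw [sub_add_cancel] at this
    exact this
  rcases h1 with ⟨h1, -⟩ | ⟨-, h1⟩
  · rw [← h1, abs_le]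
    constructor <;> linarith
  · rw [← h1, T.b_p, abs_le]
    constructor <;> linarith

include hedge in
lemma b_diff_p (γ u : Γ) : |T.b (γ * u) - T.b (γ * T.p u)| ≤ 1 := by
  rcases hedge γ u with h | h
  · rw [← h, T.b_p]; simp
  · rw [← h, T.b_p]; simp

include hedge in
lemma b_diff_iter (γ u : Γ) (n : ℕ) : |T.b (γ * u) - T.b (γ * T.p^[n] u)| ≤ n := by
  induction n with
  | zero => simp
  | succ n ih =>
    rw [Function.iterate_succ_apply']
    have := b_diff_p T hedge γ (T.p^[n] u)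
    rw [abs_le] at *
    push_cast
    constructor <;> omega

include hedge in
lemma b_diff (u u' : Γ) : ∃ D : ℕ, ∀ γ : Γ, |T.b (γ * u) - T.b (γ * u')| ≤ D := by
  obtain ⟨m, n, h⟩ := T.dir u u'
  refine ⟨m + n, fun γ => ?_⟩
  have h1 := b_diff_iter T hedge γ u m
  have h2 := b_diff_iter T hedge γ u' n
  rw [h] at h1
  rw [abs_le] at *
  push_cast
  constructor <;> omega

include hedge in
lemma n3 {K : Set ↥(Fi T)} (hK : IsCompact K) : ∃ C : ℝ, ∀ (γ : Γ), ∀ x ∈ K, ∀ x' ∈ K,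
    |hh (act T hedge γ x).1 - hh (act T hedge γ x').1| ≤ C := by
  obtain ⟨S, hS, hSK⟩ := finite_edges T hK
  choose D hD using b_diff T hedge
  obtain ⟨C, hC⟩ : ∃ C : ℕ, ∀ u ∈ S, ∀ u' ∈ S, D u u' ≤ C := by
    have hf : (image2 D S S).Finite := hS.image2 D hS
    obtain ⟨C, hC⟩ := hf.bddAbove
    exact ⟨C, fun u hu u' hu' => hC ⟨u, hu, u', hu', rfl⟩⟩
  refine ⟨C + 2, ?_⟩
  intro γ x hx x' hx'
  obtain ⟨k, hk, s, rfl⟩ := hSK x hx
  obtain ⟨k', hk', s', rfl⟩ := hSK x' hx'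
  have h1 := hh_act T hedge γ k s
  have h2 := hh_act T hedge γ k' s'
  have h3 := hE_diff _ _ _ (hD k k' γ)
  have h4 : ((D k k' : ℕ) : ℝ) ≤ C := by exact_mod_cast hC k hk k' hk'
  rw [abs_le] at *
  constructor <;> linarith [h1.1, h1.2, h2.1, h2.2, h3.1, h3.2]

include hedge in
lemma n2 {K : Set ↥(Fi T)} (hK : IsCompact K) {ε : ℝ} (M : ℝ) (hε : 0 < ε) :
    {γ : Γ | ¬ ((∀ x ∈ K, (act T hedge γ x).1.1 T.o ≤ ε) ∨
      (∀ x ∈ K, M ≤ hh (act T hedge γ x).1))}.Finite := by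
  rcases K.eq_empty_or_nonempty with rfl | ⟨x₀, hx₀⟩
  · convert finite_empty
    ext γ
    simp
  obtain ⟨C, hC⟩ := n3 T hedge hK
  obtain ⟨l, hl⟩ := exists_E_lt (half_pos hε)
  obtain ⟨N, hN⟩ := exists_nat_ge (M + C)
  obtain ⟨k, s, -, hx⟩ := exists_fe T x₀
  have hf := T.finite_le T.o l (N + 1)
  have hf' := (n1 T hedge hK T.o (half_pos hε)).union
    ((finite_mul_left hf k).union (finite_mul_left hf (T.p k)))
  apply hf'.subset
  intro γ hγ
  by_cases h1 : γ ∈ {γ : Γ | ¬ ∀ x ∈ K, ∀ x' ∈ K,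
      |(act T hedge γ x).1.1 T.o - (act T hedge γ x').1.1 T.o| ≤ ε / 2}
  · exact Or.inl h1
  right
  simp only [mem_ofPred_eq, not_not] at h1
  simp only [mem_ofPred_eq, not_or] at hγ
  push Not at hγ
  obtain ⟨⟨x, hxK, hxo⟩, ⟨y, hyK, hyh⟩⟩ := hγ
  have h2 : ε / 2 < (act T hedge γ x₀).1.1 T.o := by
    have := h1 x hxK x₀ hx₀
    rw [abs_le] at this
    linarith [this.2]
  have h3 : hh (act T hedge γ x₀).1 < M + C := by
    have := hC γ x₀ hx₀ y hyK
    rw [abs_le] at this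
    linarith [this.2]
  obtain ⟨k', s', h4, h5, -⟩ := act_fe T hedge γ k s
  rw [hx, h5] at h2 h3
  have h6 := (fe_le_c T k' s' T.o).trans_lt' h2
  have h7 := (hh_fe T k' s').1
  have hmem : k' ∈ {w | l ≤ T.m w T.o ∧ T.b w ≤ N + 1} := by
    constructor
    · have := hl.trans h6
      unfold RTree.c at this
      exact (E_lt.1 this).le
    · by_contra hcon
      push Not at hcon
      have h8 : hE (N : ℤ) ≤ hE (T.b k' - 1) := hE_mono (by omega)
      have h9 : hE (N : ℤ) = 1 + (N : ℤ) := hE_nonneg (by positivity)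
      push_cast at h9
      linarith
  rcases h4 with ⟨h4, -⟩ | ⟨h4, -⟩
  · left
    rw [h4] at hmem
    exact hmem
  · right
    rw [h4] at hmem
    exact hmem

end act

theorem exists_goodAction {Γ : Type} [Group Γ] (T : RTree Γ)
    (hedge : ∀ γ v : Γ, T.p (γ * v) = γ * T.p v ∨ T.p (γ * T.p v) = γ * v)
    (h2 : ∀ γ : Γ, γ * γ = 1 → γ = 1) :
    ∃ _ : MulAction Γ ↥(RTree.Fi T), RTree.GoodAction Γ T := by
  refine ⟨mulAct T hedge, ?_⟩
  let _ := mulAct T hedge
  exact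
    { cont := fun γ => continuous_act T hedge γ
      cov := fun x => cov T hedge h2 x
      cocpt := cocpt T hedge
      n1 := fun K hK g ε hε => n1 T hedge hK g hε
      n2 := fun K hK ε M hε => n2 T hedge hK M hε
      n3 := fun K hK => n3 T hedge hK }

end Pool.Agent.Helper93.FF
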