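import Mathlib
import Pool.Agent.Helper68.BB.En

/-!
The ends of a labelled tree are the digit sequences (module B of MP_ff8665_gt).
-/

namespace Pool.Agent.Helper93.FF

open Set Filter Topology Pool.Agent.Helper68.BB Pool.Agent.Helper68.BB.RTree

variable {V : Type} {T : RTree V}

lemma exists_vx (x : En T) (n : ℤ) : ∃ v : V, T.b v = n ∧ x.1.1 v = E n := by
  have h1 : E n < Ht x.1 := by rw [x.2.2]; exact E_lt_one n
  obtain ⟨g, hg⟩ := exists_lt_of_lt_Ht h1
  have h2 : E (n - 1) < x.1.1 g := lt_trans (by rw [E_lt]; omega) hg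
  obtain ⟨h3, h4⟩ := exists_anc h2
  refine ⟨T.anc g n, T.b_anc h3, le_antisymm ?_ ?_⟩
  · have := le_c x.1 (T.anc g n)
    rwa [T.c_self, T.b_anc h3] at this
  · rwa [min_eq_right hg.le] at h4

/-- the vertex of level `n` on the ray of `x` -/
noncomputable def vx (x : En T) (n : ℤ) : V := (exists_vx x n).choose

lemma b_vx (x : En T) (n : ℤ) : T.b (vx x n) = n := (exists_vx x n).choose_spec.1
lemma x_vx (x : En T) (n : ℤ) : x.1.1 (vx x n) = E n := (exists_vx x n).choose_spec.2

lemma eq_of_le_m {v w : V} (hb : T.b v = T.b w) (h : T.b v ≤ T.m v w) : v = w := by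
  have h1 := (T.le_m_iff le_rfl hb.le).1 h
  rwa [T.anc_self, hb, T.anc_self] at h1

/-- `vx x n` is characterised by a lower bound -/
lemma vx_eq {x : En T} {v : V} (h : E (T.b v - 1) < x.1.1 v) : vx x (T.b v) = v := by
  apply eq_of_le_m (b_vx x _)
  rw [b_vx]
  have h1 := min_le_c x.1 (vx x (T.b v)) v
  rw [x_vx] at h1
  have h2 : E (T.b v - 1) < T.c (vx x (T.b v)) v := by
    refine lt_of_lt_of_le (lt_min ?_ h) h1
    rw [E_lt]; omega
  unfold RTree.c at h2
  rw [E_lt] at h2
  omega

lemma coord_eq (x : En T) {g : V} {n : ℤ} (h : T.b g ≤ n) : x.1.1 g = T.c (vx x n) g := by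
  have h1 := min_le_c x.1 (vx x n) g
  have h2 := min_c_le' x.1 (vx x n) g
  rw [x_vx] at h1 h2
  have h3 : x.1.1 g ≤ E n := by
    refine (le_c x.1 g).trans ?_
    rw [T.c_self, E_le]; exact h
  have h4 : T.c (vx x n) g ≤ E n := by
    refine (T.c_le_right _ g).trans ?_
    rw [T.c_self, E_le]; exact h
  rw [min_eq_right h3] at h1
  rw [min_eq_right h4] at h2
  exact le_antisymm h1 h2

lemma vx_anc (x : En T) {k n : ℤ} (h : k ≤ n) : T.anc (vx x n) k = vx x k := by
  have hb : T.b (T.anc (vx x n) k) = k := T.b_anc (by rw [b_vx]; exact h)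
  have h1 : E (T.b (T.anc (vx x n) k) - 1) < x.1.1 (T.anc (vx x n) k) := by
    rw [hb, coord_eq x (n := n) (by rw [hb]; exact h), T.c_comm, RTree.c,
      T.m_anc (by rw [b_vx]; exact h), T.m_self, b_vx, min_eq_left h, E_lt]
    omega
  have h2 := vx_eq h1
  rw [hb] at h2
  exact h2.symm

lemma p_vx (x : En T) (n : ℤ) : T.p (vx x n) = vx x (n - 1) := by
  rw [← vx_anc x (by omega : n - 1 ≤ n), ← T.anc_pred, b_vx]

lemma vx_low (x : En T) : ∃ N : ℤ, N ≤ T.b T.o ∧ ∀ n ≤ N, vx x n = T.anc T.o n := by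
  obtain ⟨l, hl⟩ := exists_E_lt x.2.1
  refine ⟨min l (T.b T.o), min_le_right _ _, fun n hn => ?_⟩
  have hn1 : n ≤ l := hn.trans (min_le_left _ _)
  have hn2 : n ≤ T.b T.o := hn.trans (min_le_right _ _)
  have hb : T.b (T.anc T.o n) = n := T.b_anc hn2
  have h1 : E (T.b (T.anc T.o n) - 1) < x.1.1 (T.anc T.o n) := by
    rw [hb]
    have h2 := min_c_le' x.1 T.o (T.anc T.o n)
    have h3 : T.c T.o (T.anc T.o n) = E n := by
      rw [T.c_comm, RTree.c, T.m_anc hn2, T.m_self, min_eq_left hn2]
    rw [h3] at h2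
    refine lt_of_lt_of_le (lt_min ?_ ?_) h2
    · refine lt_of_le_of_lt ?_ hl
      rw [E_le]; omega
    · rw [E_lt]; omega
  have h2 := vx_eq h1
  rw [hb] at h2
  exact h2

lemma ext_vx {x y : En T} (h : ∀ n, vx x n = vx y n) : x = y := by
  apply Subtype.ext
  apply Subtype.ext
  funext g
  rw [coord_eq x le_rfl, coord_eq y le_rfl, h]

/-- the neighbourhoods of an end -/
lemma isOpen_vx (n : ℤ) (v : V) : IsOpen {x : En T | vx x n = v} := by
  by_cases hb : T.b v = n
  · have : {x : En T | vx x n = v} = {x : En T | E (n - 1) < x.1.1 v} := by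
      ext x
      simp only [mem_ofPred_eq]
      constructor
      · intro h
        rw [← h, x_vx, E_lt]; omega
      · intro h
        have := vx_eq (x := x) (v := v) (by rw [hb]; exact h)
        rwa [hb] at this
    rw [this]
    exact isOpen_lt continuous_const ((continuous_coord v).comp continuous_subtype_val)
  · convert isOpen_empty
    ext x
    simp only [mem_ofPred_eq, mem_empty_iff_false, iff_false]
    intro h
    exact hb (by rw [← h, b_vx])

lemma eventually_vx (x : En T) (n : ℤ) : ∀ᶠ y in 𝓝 x, vx y n = vx x n :=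
  (isOpen_vx n (vx x n)).mem_nhds rfl

/-- continuity of a map into `En` -/
lemma continuous_into {Y : Type*} [TopologicalSpace Y] (f : Y → En T)
    (h : ∀ y n, ∀ᶠ y' in 𝓝 y, vx (f y') n = vx (f y) n) : Continuous f := by
  rw [continuous_iff_continuousAt]
  intro y
  rw [ContinuousAt, tendsto_subtype_rng, tendsto_subtype_rng, tendsto_pi_nhds]
  intro g
  apply tendsto_nhds_of_eventually_eq
  filter_upwards [h y (T.b g)] with y' hy'
  rw [coord_eq (f y') (le_refl (T.b g)), coord_eq (f y) (le_refl (T.b g)), hy']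

/-- a path determines an end -/
noncomputable def ofPath (w : ℤ → V) (hb : ∀ n, T.b (w n) = n) (hp : ∀ n, T.p (w n) = w (n - 1)) :
    En T := by
  have hanc : ∀ (n : ℤ) (k : ℕ), T.anc (w n) (n - k) = w (n - k) := by
    intro n k
    induction k with
    | zero =>
      have := T.anc_self (w n)
      rw [hb] at this
      simpa using this
    | succ k ih =>
      have h1 := T.p_anc (v := w n) (n := n - k) (by rw [hb]; omega)
      rw [ih, hp] at h1
      have e : (n - ((k + 1 : ℕ) : ℤ)) = n - k - 1 := by push_cast; ring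
      rw [e]
      exact h1.symm
  have hanc' : ∀ {k n : ℤ}, k ≤ n → T.anc (w n) k = w k := by
    intro k n h
    have := hanc n (n - k).toNat
    have e : n - ((n - k).toNat : ℤ) = k := by omega
    rwa [e] at this
  have hc : ∀ (g : V) (n : ℤ), T.b g ≤ n → T.c (w (T.b g)) g = T.c (w n) g := by
    intro g n h
    unfold RTree.c
    congr 1
    rw [← hanc' h, T.m_anc (by rw [hb]; exact h), min_eq_right (T.m_le_right _ _)]
  refine ⟨⟨fun g => T.c (w (T.b g)) g, ?_⟩, ?_, ?_⟩
  · refine ⟨fun g => ⟨(T.c_pos _ g).le, T.c_le_right _ g⟩, fun g g' => ?_⟩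
    set n := max (T.b g) (T.b g') with hn
    simp only
    rw [hc g n (le_max_left _ _), hc g' n (le_max_right _ _)]
    exact (vt T (w n)).2.2 g g'
  · exact T.c_pos _ _
  · apply le_antisymm (Ht_le_one _)
    apply le_of_forall_lt
    intro a ha
    obtain ⟨n, hn⟩ := exists_lt_E ha
    refine lt_of_lt_of_le hn ?_
    refine le_trans (le_of_eq ?_) (le_Ht _ (w n))
    show E n = T.c (w (T.b (w n))) (w n)
    rw [hb, T.c_self, hb]

lemma ofPath_apply (w : ℤ → V) (hb : ∀ n, T.b (w n) = n) (hp : ∀ n, T.p (w n) = w (n - 1))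
    (g : V) : (ofPath w hb hp).1.1 g = T.c (w (T.b g)) g := rfl

lemma vx_ofPath (w : ℤ → V) (hb : ∀ n, T.b (w n) = n) (hp : ∀ n, T.p (w n) = w (n - 1))
    (n : ℤ) : vx (ofPath w hb hp) n = w n := by
  have h1 : E (T.b (w n) - 1) < (ofPath w hb hp).1.1 (w n) := by
    rw [ofPath_apply, hb, T.c_self, hb, E_lt]
    omega
  have h2 := vx_eq h1
  rwa [hb] at h2

section lab

variable {A : Type} {z : A} {lab : V → A}
  (hlab : ∀ v, Set.BijOn lab {c | T.p c = v} Set.univ)

/-- digits -/
noncomputable def dig (lab : V → A) (x : En T) (n : ℤ) : A := lab (vx x n)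

include hlab in
lemma child_inj {u v : V} (h : T.p u = T.p v) (hl : lab u = lab v) : u = v :=
  (hlab (T.p v)).injOn h rfl hl

include hlab in
lemma vx_eq_iff (x y : En T) (n : ℤ) :
    vx x n = vx y n ↔ ∀ k ≤ n, dig lab x k = dig lab y k := by
  constructor
  · intro h k hk
    unfold dig
    rw [← vx_anc x hk, ← vx_anc y hk, h]
  · intro h
    obtain ⟨N, hN, hx⟩ := vx_low x
    obtain ⟨M, hM, hy⟩ := vx_low y
    have key : ∀ j : ℕ, min N M + j ≤ n → vx x (min N M + j) = vx y (min N M + j) := by
      intro j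
      induction j with
      | zero =>
        intro _
        rw [hx _ (by simp), hy _ (by simp)]
      | succ j ih =>
        intro hj
        have hj' : min N M + (j : ℤ) ≤ n := by push_cast at hj; omega
        apply child_inj hlab
        · rw [p_vx, p_vx]
          have e : min N M + ((j + 1 : ℕ) : ℤ) - 1 = min N M + j := by push_cast; ring
          rw [e]
          exact ih hj'
        · exact h _ hj
    rcases le_or_gt (min N M) n with h1 | h1
    · have := key (n - min N M).toNat (by omega)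
      have e : min N M + ((n - min N M).toNat : ℤ) = n := by omega
      rwa [e] at this
    · rw [hx n (by omega), hy n (by omega)]

include hlab in
lemma ext_dig {x y : En T} (h : ∀ n, dig lab x n = dig lab y n) : x = y :=
  ext_vx fun n => (vx_eq_iff hlab x y n).2 fun k _ => h k

include hlab in
lemma exists_child (v : V) (a : A) : ∃ c, T.p c = v ∧ lab c = a := by
  obtain ⟨c, hc, h⟩ := (hlab v).surjOn (mem_univ a)
  exact ⟨c, hc, h⟩

lemma dig_low (hz : ∀ n : ℕ, lab (T.p^[n] T.o) = z) (x : En T) :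
    ∃ N : ℤ, ∀ n ≤ N, dig lab x n = z := by
  obtain ⟨N, hN, h⟩ := vx_low x
  refine ⟨N, fun n hn => ?_⟩
  unfold dig
  rw [h n hn]
  exact hz _

include hlab in
/-- every digit sequence comes from an end -/
lemma exists_of_dig (hz : ∀ n : ℕ, lab (T.p^[n] T.o) = z) (i : ℤ → A) (N : ℤ)
    (hi : ∀ n ≤ N, i n = z) : ∃ x : En T, ∀ n, dig lab x n = i n := by
  classical
  choose ch hch1 hch2 using fun v a => exists_child hlab v a
  set M := min N (T.b T.o) with hM
  have hMo : M ≤ T.b T.o := min_le_right _ _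
  -- the vertices above level `M`
  let u : ℕ → V := fun j => Nat.rec (T.anc T.o M) (fun j v => ch v (i (M + (j + 1)))) j
  have u0 : u 0 = T.anc T.o M := rfl
  have us : ∀ j : ℕ, u (j + 1) = ch (u j) (i (M + (j + 1))) := fun j => rfl
  have ub : ∀ j : ℕ, T.b (u j) = M + j := by
    intro j
    induction j with
    | zero => rw [u0, T.b_anc hMo]; simp
    | succ j ih =>
      have h1 := T.b_p (u (j + 1))
      rw [us, hch1, ih] at h1
      rw [us]
      push_cast
      omega
  let w : ℤ → V := fun n => if n ≤ M then T.anc T.o n else u (n - M).toNat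
  have wle : ∀ n ≤ M, w n = T.anc T.o n := fun n hn => if_pos hn
  have wge : ∀ j : ℕ, w (M + j) = u j := by
    intro j
    by_cases hj : j = 0
    · subst hj
      rw [u0]
      simp only [Nat.cast_zero, add_zero]
      exact wle M le_rfl
    · have h1 : ¬ (M + (j : ℤ) ≤ M) := by omega
      show (if M + (j : ℤ) ≤ M then T.anc T.o (M + j) else u (M + j - M).toNat) = u j
      rw [if_neg h1]
      congr 1
      omega
  have hb : ∀ n, T.b (w n) = n := by
    intro n
    rcases le_or_gt n M with h | h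
    · rw [wle n h, T.b_anc (h.trans hMo)]
    · have e : n = M + ((n - M).toNat : ℤ) := by omega
      rw [e, wge, ub]
  have hp : ∀ n, T.p (w n) = w (n - 1) := by
    intro n
    rcases le_or_gt n M with h | h
    · rw [wle n h, wle (n - 1) (by omega), T.p_anc (h.trans hMo)]
    · obtain ⟨j, hj⟩ : ∃ j : ℕ, n = M + ((j + 1 : ℕ) : ℤ) := ⟨(n - M - 1).toNat, by
        push_cast; omega⟩
      have e : n - 1 = M + (j : ℤ) := by rw [hj]; push_cast; ring
      rw [e, hj, wge, wge, us, hch1]
  refine ⟨ofPath w hb hp, fun n => ?_⟩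
  unfold dig
  rw [vx_ofPath]
  rcases le_or_gt n M with h | h
  · rw [wle n h, hi n (h.trans (min_le_left _ _))]
    exact hz _
  · obtain ⟨j, hj⟩ : ∃ j : ℕ, n = M + ((j + 1 : ℕ) : ℤ) := ⟨(n - M - 1).toNat, by
      push_cast; omega⟩
    rw [hj, wge, us, hch2]
    congr 1

end lab

/-- interleaving -/
def inter {A : Type} (i j : ℤ → A) (n : ℤ) : A := if Even n then i (n / 2) else j (n / 2)

lemma inter_even {A : Type} (i j : ℤ → A) (n : ℤ) : inter i j (2 * n) = i n := by
  unfold inter
  rw [if_pos (by simp)]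
  congr 1
  omega

lemma inter_odd {A : Type} (i j : ℤ → A) (n : ℤ) : inter i j (2 * n + 1) = j n := by
  unfold inter
  rw [if_neg (by simp)]
  congr 1
  omega

theorem enProd {V : Type} (T : RTree V) {A : Type} (z : A) (lab : V → A)
    (hlab : ∀ v, Set.BijOn lab {c | T.p c = v} Set.univ)
    (hz : ∀ n : ℕ, lab (T.p^[n] T.o) = z) :
    Nonempty (↥(RTree.En T) × ↥(RTree.En T) ≃ₜ ↥(RTree.En T)) := by
  have hmk : ∀ i : ℤ → A, (∃ N : ℤ, ∀ n ≤ N, i n = z) → ∃ x : En T, ∀ n, dig lab x n = i n := by
    rintro i ⟨N, hN⟩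
    exact exists_of_dig hlab hz i N hN
  have h1 : ∀ q : En T × En T, ∃ x : En T, ∀ n, dig lab x n = inter (dig lab q.1) (dig lab q.2) n := by
    intro q
    apply hmk
    obtain ⟨N, hN⟩ := dig_low hz q.1
    obtain ⟨M, hM⟩ := dig_low hz q.2
    refine ⟨2 * min N M, fun n hn => ?_⟩
    unfold inter
    split_ifs
    · apply hN; omega
    · apply hM; omega
  have h2 : ∀ x : En T, ∃ y : En T, ∀ n, dig lab y n = dig lab x (2 * n) := by
    intro x
    apply hmk
    obtain ⟨N, hN⟩ := dig_low hz x
    exact ⟨min N 0, fun n hn => hN _ (by omega)⟩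
  have h3 : ∀ x : En T, ∃ y : En T, ∀ n, dig lab y n = dig lab x (2 * n + 1) := by
    intro x
    apply hmk
    obtain ⟨N, hN⟩ := dig_low hz x
    exact ⟨min (N - 1) (-1), fun n hn => hN _ (by omega)⟩
  choose F hF using h1
  choose G1 hG1 using h2
  choose G2 hG2 using h3
  refine ⟨{ toFun := F, invFun := fun x => (G1 x, G2 x), left_inv := ?_, right_inv := ?_,
            continuous_toFun := ?_, continuous_invFun := ?_ }⟩
  · intro q
    apply Prod.ext
    · apply ext_dig hlab
      intro n
      show dig lab (G1 (F q)) n = _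
      rw [hG1, hF, inter_even]
    · apply ext_dig hlab
      intro n
      show dig lab (G2 (F q)) n = _
      rw [hG2, hF, inter_odd]
  · intro x
    apply ext_dig hlab
    intro n
    show dig lab (F (G1 x, G2 x)) n = _
    rw [hF]
    unfold inter
    split_ifs with h
    · show dig lab (G1 x) (n / 2) = _
      rw [hG1]
      congr 1
      obtain ⟨k, hk⟩ := h
      omega
    · show dig lab (G2 x) (n / 2) = _
      rw [hG2]
      congr 1
      rw [Int.not_even_iff_odd] at h
      obtain ⟨k, hk⟩ := h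
      omega
  · apply continuous_into
    intro q n
    have e1 : ∀ᶠ q' in 𝓝 q, vx q'.1 (max n 0) = vx q.1 (max n 0) :=
      (continuous_fst.tendsto q).eventually (eventually_vx q.1 _)
    have e2 : ∀ᶠ q' in 𝓝 q, vx q'.2 (max n 0) = vx q.2 (max n 0) :=
      (continuous_snd.tendsto q).eventually (eventually_vx q.2 _)
    filter_upwards [e1, e2] with q' hq1 hq2
    rw [vx_eq_iff hlab] at hq1 hq2 ⊢
    intro k hk
    rw [hF, hF]
    unfold inter
    split_ifs
    · exact hq1 _ (by omega)
    · exact hq2 _ (by omega)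
  · apply Continuous.prodMk
    · apply continuous_into
      intro x n
      filter_upwards [eventually_vx x (max (2 * n) 0)] with x' hx'
      rw [vx_eq_iff hlab] at hx' ⊢
      intro k hk
      rw [hG1, hG1]
      exact hx' _ (by omega)
    · apply continuous_into
      intro x n
      filter_upwards [eventually_vx x (max (2 * n + 1) 0)] with x' hx'
      rw [vx_eq_iff hlab] at hx' ⊢
      intro k hk
      rw [hG2, hG2]
      exact hx' _ (by omega)

theorem enUnique {V : Type} (T : RTree V) {A : Type} [Unique A] (lab : V → A)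
    (hlab : ∀ v, Set.BijOn lab {c | T.p c = v} Set.univ) : Nonempty (↥(RTree.En T) ≃ₜ Unit) := by
  obtain ⟨x, -⟩ := exists_of_dig (z := default) hlab (fun n => Subsingleton.elim _ _)
    (fun _ => default) 0 (fun _ _ => rfl)
  have hs : ∀ y : En T, y = x := fun y => ext_dig hlab fun n => Subsingleton.elim _ _
  have : Unique (En T) := { default := x, uniq := hs }
  exact ⟨Homeomorph.homeomorphOfUnique _ _⟩

end Pool.Agent.Helper93.FF
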